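import Pool.Agent.Hp21.INA.Sum
import Pool.Agent.ZH17.IN.Par

/-!
# One-sided asymptotic inequalities for sums over degrees modulo `p`
-/

set_option autoImplicit false
set_option maxHeartbeats 400000

open scoped BigOperators Classical

noncomputable section

namespace Pool.Agent.Hp21.INA

open Pool.Agent.Helper884.IC
open Pool.Agent.Q90.WR
open Pool.Agent.ZH17.IN

/-- the normalizer of a Sylow subgroup -/
abbrev N {p : ℕ} {G : Type} [Group G] (P : Sylow p G) : Subgroup G :=
  Subgroup.normalizer ((P : Subgroup G) : Set G)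

/-- degrees prime to `p` only -/
def cut {p : ℕ} (f : ZMod p → ℝ) (a : ZMod p) : ℝ := if a = 0 then 0 else f a

section

variable {p : ℕ} [hp : Fact p.Prime]

theorem Sm_eq (h : ZMod p → ℝ) (K : Type) [Group K] [Fintype K] :
    Sm p h K = ∑ a : ZMod p, h a * (cnt p 1 a K : ℝ) := by
  unfold Sm
  rw [← Finset.sum_fiberwise (s := Irr K) (g := fun χ => (dg χ : ZMod p))]
  refine Finset.sum_congr rfl fun a _ => ?_
  rw [Finset.sum_congr rfl (g := fun _ => h a) fun χ hχ => by
    rw [(Finset.mem_filter.mp hχ).2], Finset.sum_const, nsmul_eq_mul, mul_comm, cnt_eq]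
  have e : (Irr K).filter (fun χ => (dg χ : ZMod p) = a) =
      (Irr K).filter fun χ => v p 1 χ = a := by
    ext χ
    simp only [Finset.mem_filter]
    unfold v
    rw [pow_one]
  rw [← e]

/-- the sum of `f` over the degrees prime to `p` -/
def T (p : ℕ) (f : ZMod p → ℝ) (K : Type) [Group K] [Finite K] : ℝ :=
  letI := Fintype.ofFinite K
  Sm p (cut f) K

theorem T_eq_Sm (f : ZMod p → ℝ) (K : Type) [Group K] [h : Fintype K] :
    T p f K = Sm p (cut f) K := by
  unfold T
  exact congrArg (fun i : Fintype K => @Sm p (cut f) K _ i) (Subsingleton.elim _ _)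

theorem T_eq (f : ZMod p → ℝ) (K : Type) [Group K] [Finite K] :
    T p f K = ∑ a : ZMod p, cut f a * (cnt p 1 a K : ℝ) := by
  have := Fintype.ofFinite K
  rw [T_eq_Sm, Sm_eq]

theorem T_iso {K L : Type} [Group K] [Finite K] [Group L] [Finite L] (e : K ≃* L)
    (f : ZMod p → ℝ) : T p f K = T p f L := by
  have := Fintype.ofFinite K
  have := Fintype.ofFinite L
  rw [T_eq_Sm, T_eq_Sm]
  exact Sm_iso e p _

theorem T_wq {r : ℕ} [hr : Fact r.Prime] {A : Type} [CommGroup A] [Fintype A]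
    (hrp : (r : ZMod p) ≠ 0) (f : ZMod p → ℝ) (G : Type) [Group G] [Finite G] :
    (r : ℝ) * T p f (G × Wq r A) = (nc r A : ℝ) * T p (fun a => f ((r : ZMod p) * a)) G +
      ((r : ℝ) * (r * Nat.card A)) * T p f G := by
  have := Fintype.ofFinite G
  rw [T_eq_Sm, T_eq_Sm, T_eq_Sm, Sm_wq]
  congr 3
  funext a
  unfold cut
  by_cases ha : a = 0
  · rw [if_pos ha, ha, mul_zero, if_pos rfl]
  · rw [if_neg ha, if_neg (mul_ne_zero hrp ha)]

/-- the difference of the local and the global sum -/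
def E (f : ZMod p → ℝ) {G : Type} [Group G] [Finite G] (P : Sylow p G) : ℝ :=
  T p f (N P) - T p f G

/-- `X` is closed under products with the groups `C_m ≀ C_r` of order prime to `p` -/
def ClosedW (p : ℕ) (X : ∀ (G : Type) [Group G], Prop) : Prop :=
  ∀ (G : Type) [Group G] [Finite G] (r m : ℕ), r.Prime → r ≠ p → ¬ p ∣ m → X G →
    X (G × Wq r (Multiplicative (ZMod m)))

theorem nc_ge {r : ℕ} [hr : Fact r.Prime] {A : Type} [CommGroup A] [Fintype A] :
    Nat.card A * (Nat.card A - 1) ≤ nc r A := by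
  have h1 := nc_add (r := r) (A := A)
  have h2 : Nat.card A ^ 2 ≤ Nat.card A ^ r :=
    Nat.pow_le_pow_right Nat.card_pos hr.out.two_le
  rw [Nat.mul_sub, mul_one, ← sq]
  omega

/-- **The main step.** -/
theorem step {X : ∀ (G : Type) [Group G], Prop} (hX : ClosedW p X) {f : ZMod p → ℝ}
    (H : ∀ ε : ℝ, 0 < ε → ∃ n₀ : ℕ, ∀ (G : Type) [Group G] [Finite G] (P : Sylow p G), X G →
      n₀ ≤ Nat.card G → E f P ≤ ε * T p (fun _ => 1) G)
    {G : Type} [Group G] [Finite G] (P : Sylow p G) (hG : X G) {r : ℕ} (hr : r.Prime)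
    (hrp : r ≠ p) : E (fun a => f ((r : ZMod p) * a)) P ≤ 0 := by
  by_contra hcon
  push Not at hcon
  have : Fact r.Prime := ⟨hr⟩
  have hr0 : (r : ZMod p) ≠ 0 := by
    intro h
    rw [ZMod.natCast_eq_zero_iff] at h
    exact hrp ((Nat.prime_dvd_prime_iff_eq hp.out hr).mp h).symm
  set E' := E (fun a => f ((r : ZMod p) * a)) P with hE'
  set k : ℝ := T p (fun _ => 1) G with hk
  have hk0 : 0 ≤ k := by
    rw [hk, T_eq]
    refine Finset.sum_nonneg fun a _ => mul_nonneg ?_ (Nat.cast_nonneg _)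
    unfold cut
    split
    · exact le_rfl
    · exact zero_le_one
  set ε : ℝ := E' / (2 * (k + 1)) with hε
  have hε0 : 0 < ε := div_pos hcon (by linarith)
  have hεk : ε * k ≤ E' / 2 := by
    rw [hε, div_mul_eq_mul_div, div_le_div_iff₀ (by linarith) (by norm_num)]
    nlinarith
  obtain ⟨n₀, hn⟩ := H ε hε0
  obtain ⟨t₀, ht₀⟩ := exists_nat_gt (2 * ((r : ℝ) ^ 2 * (ε * k + |E f P|)) / E')
  set t : ℕ := max n₀ (max t₀ 1) with ht
  have ht1 : 1 ≤ t := le_trans (le_max_right _ _) (le_max_right _ _)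
  have htn : n₀ ≤ t := le_max_left _ _
  have htt : (t₀ : ℝ) ≤ t := by
    exact_mod_cast le_trans (le_max_left _ _) (le_max_right _ _)
  set m : ℕ := p * t + 1 with hm
  have hpm : ¬ p ∣ m := by
    intro h
    have h2 : p ∣ 1 := (Nat.dvd_add_right (Dvd.intro t rfl)).mp h
    exact hp.out.one_lt.ne' (Nat.dvd_one.mp h2)
  have : NeZero m := ⟨by omega⟩
  have hcA : Nat.card (Multiplicative (ZMod m)) = m := by
    rw [Nat.card_eq_fintype_card, Fintype.card_multiplicative, ZMod.card]
  have hcK : Nat.card (Wq r (Multiplicative (ZMod m))) = r * m ^ r := by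
    rw [Wq.card, hcA]
  have hpc : ¬ p ∣ Nat.card (Wq r (Multiplicative (ZMod m))) := by
    rw [hcK]
    intro h
    rcases (Nat.Prime.dvd_mul hp.out).mp h with h3 | h3
    · exact hrp ((Nat.prime_dvd_prime_iff_eq hp.out hr).mp h3).symm
    · exact hpm (hp.out.dvd_of_dvd_pow h3)
  obtain ⟨Q, hQ⟩ := exists_sylow_prod (H := Wq r (Multiplicative (ZMod m))) hpc P
  have e1 : Nonempty (N Q ≃* N P × Wq r (Multiplicative (ZMod m))) := by
    unfold N
    rw [hQ]
    exact ⟨prodNorm _⟩
  obtain ⟨e1⟩ := e1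
  have hcard : n₀ ≤ Nat.card (G × Wq r (Multiplicative (ZMod m))) := by
    rw [Nat.card_prod, hcK]
    have h1 : m ≤ m ^ r := Nat.le_self_pow hr.ne_zero m
    have h2 : 0 < Nat.card G := Nat.card_pos
    have h3 : t ≤ m := by
      rw [hm]
      have := Nat.mul_le_mul_right t hp.out.one_le
      omega
    calc n₀ ≤ m := htn.trans h3
      _ ≤ m ^ r := h1
      _ ≤ r * m ^ r := Nat.le_mul_of_pos_left _ hr.pos
      _ ≤ Nat.card G * (r * m ^ r) := Nat.le_mul_of_pos_left _ h2
  have key := hn (G × Wq r (Multiplicative (ZMod m))) Q (hX G r m hr hrp hpm hG) hcard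
  have hrpos : (0 : ℝ) < r := by exact_mod_cast hr.pos
  have key2 := mul_le_mul_of_nonneg_left key hrpos.le
  have w1 := T_wq (A := Multiplicative (ZMod m)) hr0 f (N P)
  have w2 := T_wq (A := Multiplicative (ZMod m)) hr0 f G
  have w3 := T_wq (A := Multiplicative (ZMod m)) hr0 (fun _ => 1) G
  rw [hcA] at w1 w2 w3
  have hnc : m * (m - 1) ≤ nc r (Multiplicative (ZMod m)) := by
    have := nc_ge (r := r) (A := Multiplicative (ZMod m))
    rwa [hcA] at this
  have hnc' : (m : ℝ) * (p * t) ≤ nc r (Multiplicative (ZMod m)) := by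
    have h1 : m * (p * t) ≤ nc r (Multiplicative (ZMod m)) := by
      have : m - 1 = p * t := by omega
      rwa [this] at hnc
    exact_mod_cast h1
  have k1 : (r : ℝ) * E f Q = nc r (Multiplicative (ZMod m)) * E' + r * (r * m) * E f P := by
    unfold E at hE' ⊢
    rw [T_iso e1, hE', mul_sub, w1, w2]
    ring
  have k2 : (r : ℝ) * (ε * T p (fun _ => 1) (G × Wq r (Multiplicative (ZMod m)))) =
      ε * ((nc r (Multiplicative (ZMod m)) : ℝ) * k + r * (r * m) * k) := by
    rw [hk, ← w3]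
    ring
  rw [k1, k2] at key2
  have hm0 : (0 : ℝ) < m := by
    have : 0 < m := by omega
    exact_mod_cast this
  have hp1 : (1 : ℝ) ≤ p := by exact_mod_cast hp.out.one_le
  have hncp : (0 : ℝ) ≤ nc r (Multiplicative (ZMod m)) := Nat.cast_nonneg _
  have c1 : (nc r (Multiplicative (ZMod m)) : ℝ) * (E' / 2) ≤
      nc r (Multiplicative (ZMod m)) * (E' - ε * k) :=
    mul_le_mul_of_nonneg_left (by linarith) hncp
  have c2 : (m : ℝ) * (p * t) * (E' / 2) ≤ nc r (Multiplicative (ZMod m)) * (E' / 2) :=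
    mul_le_mul_of_nonneg_right hnc' (by linarith)
  have c3 : (nc r (Multiplicative (ZMod m)) : ℝ) * (E' - ε * k) ≤
      m * ((r : ℝ) ^ 2 * (ε * k + |E f P|)) := by
    have h1 : -|E f P| ≤ E f P := neg_abs_le _
    have h2 : (r : ℝ) * (r * m) * (-|E f P|) ≤ r * (r * m) * E f P :=
      mul_le_mul_of_nonneg_left h1 (by positivity)
    nlinarith
  have c4 : (m : ℝ) * (t * (E' / 2)) ≤ m * ((r : ℝ) ^ 2 * (ε * k + |E f P|)) := by
    have h1 : (m : ℝ) * (t * (E' / 2)) ≤ (m : ℝ) * (p * t) * (E' / 2) := by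
      have h2 : (t : ℝ) ≤ p * t := le_mul_of_one_le_left (Nat.cast_nonneg _) hp1
      have h3 : (t : ℝ) * (E' / 2) ≤ p * t * (E' / 2) :=
        mul_le_mul_of_nonneg_right h2 (by linarith)
      calc (m : ℝ) * (t * (E' / 2)) ≤ m * (p * t * (E' / 2)) :=
            mul_le_mul_of_nonneg_left h3 hm0.le
        _ = _ := by ring
    linarith
  have c5 : (t : ℝ) * (E' / 2) ≤ (r : ℝ) ^ 2 * (ε * k + |E f P|) := le_of_mul_le_mul_left c4 hm0
  rw [div_lt_iff₀ hcon] at ht₀
  have c6 : (t₀ : ℝ) * E' ≤ t * E' := mul_le_mul_of_nonneg_right htt hcon.le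
  linarith

/-- `f` and its translates separate the even functions of sum zero -/
def Generic (p : ℕ) [NeZero p] (f : ZMod p → ℝ) : Prop :=
  ∀ x : ZMod p → ℝ, x 0 = 0 → (∀ a, x (-a) = x a) → ∑ a, x a = 0 →
    (∀ d : ZMod p, d ≠ 0 → ∑ a, f (d * a) * x a = 0) → x = 0

theorem cnt2 {K : Type} [Group K] [Finite K] (c : ZMod p) : (cnt p 2 c K : ℝ) =
    ∑ a ∈ Finset.univ.filter (fun a : ZMod p => a ^ 2 = c), (cnt p 1 a K : ℝ) := by
  have := Fintype.ofFinite K
  have h := sum_one (p := p) (e := 1) (G := K) (fun a => a ^ 2 = c)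
  have h2 : cnt p 2 c K = ((Irr K).filter fun χ => v p 1 χ ^ 2 = c).card := by
    rw [cnt_eq]
    congr 1
    ext χ
    simp only [Finset.mem_filter]
    unfold v
    rw [pow_one]
  rw [h2, h]
  push_cast
  rfl

theorem E_eq (f : ZMod p → ℝ) {G : Type} [Group G] [Finite G] (P : Sylow p G) :
    E f P = ∑ a : ZMod p, f a * (if a = 0 then 0 else
      (cnt p 1 a (N P) : ℝ) - cnt p 1 a G) := by
  unfold E
  rw [T_eq, T_eq, ← Finset.sum_sub_distrib]
  refine Finset.sum_congr rfl fun a _ => ?_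
  unfold cut
  by_cases h : a = 0
  · rw [if_pos h, if_pos h]; ring
  · rw [if_neg h, if_neg h]; ring

/-- **The numbers agree.** -/
theorem all_eq {X : ∀ (G : Type) [Group G], Prop} (hX : ClosedW p X) {f : ZMod p → ℝ}
    (hf : ∀ a, f (-a) = f a) (hg : Generic p f)
    (M : ∀ (G : Type) [Group G] [Finite G] (P : Sylow p G), X G → E (fun _ => 1) P = 0)
    (H : ∀ ε : ℝ, 0 < ε → ∃ n₀ : ℕ, ∀ (G : Type) [Group G] [Finite G] (P : Sylow p G), X G →
      n₀ ≤ Nat.card G → E f P ≤ ε * T p (fun _ => 1) G)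
    {G : Type} [Group G] [Finite G] (P : Sylow p G) (hG : X G) (c : ZMod p) (hc : c ≠ 0) :
    cnt p 2 c G = cnt p 2 c (N P) := by
  set y : ZMod p → ℝ := fun a => if a = 0 then 0 else (cnt p 1 a (N P) : ℝ) - cnt p 1 a G with hy
  have hy0 : y 0 = 0 := by rw [hy]; exact if_pos rfl
  have hEy : ∀ g : ZMod p → ℝ, E g P = ∑ a, g a * y a := fun g => E_eq g P
  have h1 : ∀ d : ZMod p, d ≠ 0 → E (fun a => f (d * a)) P ≤ 0 := by
    intro d hd
    have := NeZero.of_gt hp.out.one_lt
    obtain ⟨r, -, hr, hr'⟩ := Nat.forall_exists_prime_gt_and_eq_mod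
      (q := p) (a := d) (isUnit_iff_ne_zero.mpr hd) 0
    have hrp : r ≠ p := by
      rintro rfl
      rw [ZMod.natCast_self] at hr'
      exact hd hr'.symm
    have := step hX H P hG hr hrp
    rwa [hr'] at this
  have hsum : ∑ a, y a = 0 := by
    have := M G P hG
    rw [hEy] at this
    simpa using this
  have h2 : ∑ d ∈ Finset.univ.erase (0 : ZMod p), E (fun a => f (d * a)) P = 0 := by
    have e1 : ∀ a : ZMod p, (∑ d ∈ Finset.univ.erase (0 : ZMod p), f (d * a) * y a) =
        (∑ d ∈ Finset.univ.erase (0 : ZMod p), f d) * y a := by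
      intro a
      by_cases ha : a = 0
      · rw [ha, hy0, mul_zero]
        exact Finset.sum_eq_zero fun d _ => mul_zero _
      · rw [← Finset.sum_mul]
        congr 1
        refine Finset.sum_bij' (fun d _ => d * a) (fun d _ => d * a⁻¹) ?_ ?_ ?_ ?_ ?_
        · intro d hd
          exact Finset.mem_erase.mpr ⟨mul_ne_zero (Finset.mem_erase.mp hd).1 ha,
            Finset.mem_univ _⟩
        · intro d hd
          exact Finset.mem_erase.mpr ⟨mul_ne_zero (Finset.mem_erase.mp hd).1 (inv_ne_zero ha),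
            Finset.mem_univ _⟩
        · intro d _
          rw [mul_assoc, mul_inv_cancel₀ ha, mul_one]
        · intro d _
          rw [mul_assoc, inv_mul_cancel₀ ha, mul_one]
        · intro d _
          rfl
    rw [Finset.sum_congr rfl fun d _ => hEy _, Finset.sum_comm,
      Finset.sum_congr rfl fun a _ => e1 a, ← Finset.mul_sum, hsum, mul_zero]
  have h3 : ∀ d : ZMod p, d ≠ 0 → E (fun a => f (d * a)) P = 0 := by
    intro d hd
    exact (Finset.sum_eq_zero_iff_of_nonpos fun i hi => h1 i (Finset.mem_erase.mp hi).1).mp h2 d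
      (Finset.mem_erase.mpr ⟨hd, Finset.mem_univ _⟩)
  have hneg : ∀ g : ZMod p → ℝ, ∑ a, g (-a) = ∑ a, g a := fun g =>
    Fintype.sum_equiv (Equiv.neg _) _ _ fun a => rfl
  have hx := hg (fun a => y a + y (-a)) (by simp [hy0]) (by intro a; rw [neg_neg, add_comm])
    (by rw [Finset.sum_add_distrib, hneg y, hsum, add_zero]) (by
      intro d hd
      have e1 : ∑ a, f (d * a) * y (-a) = ∑ a, f (d * a) * y a := by
        rw [← hneg fun a => f (d * a) * y a]
        refine Finset.sum_congr rfl fun a _ => ?_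
        rw [mul_neg, hf]
      rw [Finset.sum_congr rfl fun a _ => mul_add _ _ _, Finset.sum_add_distrib, e1,
        ← hEy (fun a => f (d * a)), h3 d hd, add_zero])
  have h4 : (∑ a ∈ Finset.univ.filter (fun a : ZMod p => a ^ 2 = c), y (-a)) =
      ∑ a ∈ Finset.univ.filter (fun a : ZMod p => a ^ 2 = c), y a := by
    refine Finset.sum_bij' (fun a _ => -a) (fun a _ => -a) ?_ ?_ ?_ ?_ ?_
    · intro a ha
      rw [Finset.mem_filter] at ha ⊢
      exact ⟨Finset.mem_univ _, by rw [neg_sq]; exact ha.2⟩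
    · intro a ha
      rw [Finset.mem_filter] at ha ⊢
      exact ⟨Finset.mem_univ _, by rw [neg_sq]; exact ha.2⟩
    · intro a _; exact neg_neg a
    · intro a _; exact neg_neg a
    · intro a _; rfl
  have h5 : ∑ a ∈ Finset.univ.filter (fun a : ZMod p => a ^ 2 = c), y a = 0 := by
    have h6 : ∑ a ∈ Finset.univ.filter (fun a : ZMod p => a ^ 2 = c), (y a + y (-a)) = 0 :=
      Finset.sum_eq_zero fun a _ => congrFun hx a
    rw [Finset.sum_add_distrib, h4] at h6
    linarith
  have h6 : (cnt p 2 c (N P) : ℝ) - cnt p 2 c G = 0 := by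
    rw [cnt2, cnt2, ← Finset.sum_sub_distrib, ← h5]
    refine Finset.sum_congr rfl fun a ha => ?_
    have ha0 : a ≠ 0 := by
      rintro rfl
      rw [Finset.mem_filter] at ha
      apply hc
      rw [← ha.2]
      ring
    rw [hy]
    exact (if_neg ha0).symm
  have h7 : (cnt p 2 c G : ℝ) = cnt p 2 c (N P) := by linarith
  exact_mod_cast h7

end

end Pool.Agent.Hp21.INA
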