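import Pool.Agent.ZH17.IN.CountQ
import Pool.Agent.ZH17.IN.Aff

/-!
# Sums over the degrees modulo `p` of the irreducible characters of `G × (A ≀ C_r)`, `A` abelian
-/

set_option autoImplicit false
set_option maxHeartbeats 400000

open scoped BigOperators Classical

noncomputable section

namespace Pool.Agent.Hp21.INA

open Pool.Agent.Helper884.IC
open Pool.Agent.Q90.WR
open Pool.Agent.Q99.AS (ten ten_irr ten_cover ten_inj)
open Pool.Agent.ZH17.IN

theorem filter_inst {α : Type} (s : Finset α) (Q : α → Prop) (d1 d2 : DecidablePred Q) :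
    @Finset.filter _ Q d1 s = @Finset.filter _ Q d2 s := by
  ext a
  simp only [Finset.mem_filter]

/-- the sum of `h` over the degrees modulo `p` of the irreducible characters -/
def Sm (p : ℕ) (h : ZMod p → ℝ) (G : Type) [Group G] [Fintype G] : ℝ :=
  ∑ χ ∈ Irr G, h (dg χ : ZMod p)

section prod

variable {G H : Type} [Group G] [Group H] [Fintype G] [Fintype H]

theorem sum_Irr_prod (F : (G × H → ℂ) → ℝ) :
    ∑ χ ∈ Irr (G × H), F χ = ∑ θ ∈ Irr G, ∑ ψ ∈ Irr H, F (ten θ ψ) := by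
  rw [← Finset.sum_product']
  symm
  refine Finset.sum_bij (fun t _ => ten t.1 t.2) ?_ ?_ ?_ ?_
  · rintro ⟨θ, ψ⟩ h
    rw [Finset.mem_product, mem_Irr, mem_Irr] at h
    exact mem_Irr.mpr (ten_irr h.1 h.2)
  · rintro ⟨θ, ψ⟩ h ⟨θ', ψ'⟩ h' e
    rw [Finset.mem_product, mem_Irr, mem_Irr] at h h'
    obtain ⟨h1, h2⟩ := ten_inj h.1 h.2 h'.1 h'.2 e
    exact Prod.ext h1 h2
  · intro χ hχ
    obtain ⟨θ, ψ, h1, h2, rfl⟩ := ten_cover (mem_Irr.mp hχ)
    exact ⟨(θ, ψ), Finset.mem_product.mpr ⟨mem_Irr.mpr h1, mem_Irr.mpr h2⟩, rfl⟩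
  · intro t _
    rfl

theorem dg_ten {θ : G → ℂ} {ψ : H → ℂ} (h1 : IsIrrChar θ) (h2 : IsIrrChar ψ) :
    dg (ten θ ψ) = dg θ * dg ψ := by
  have h3 : ten θ ψ 1 = ((dg θ * dg ψ : ℕ) : ℂ) := by
    change θ 1 * ψ 1 = _
    rw [dg_spec h1, dg_spec h2]; push_cast; ring
  exact dg_eq h3

theorem Sm_prod (p : ℕ) (h : ZMod p → ℝ) : Sm p h (G × H) =
    ∑ θ ∈ Irr G, ∑ ψ ∈ Irr H, h ((dg θ : ZMod p) * (dg ψ : ZMod p)) := by
  unfold Sm
  rw [sum_Irr_prod]
  refine Finset.sum_congr rfl fun θ hθ => Finset.sum_congr rfl fun ψ hψ => ?_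
  rw [dg_ten (mem_Irr.mp hθ) (mem_Irr.mp hψ)]
  push_cast
  rfl

theorem Sm_iso (e : G ≃* H) (p : ℕ) (h : ZMod p → ℝ) : Sm p h G = Sm p h H := by
  unfold Sm
  symm
  refine Finset.sum_bij (fun χ _ => fun g => χ (e g)) ?_ ?_ ?_ ?_
  · intro χ hχ
    exact mem_Irr.mpr (irr_comp e (mem_Irr.mp hχ))
  · intro χ _ ψ _ h
    funext x
    have := congrFun h (e.symm x)
    simpa using this
  · intro χ hχ
    refine ⟨fun x => χ (e.symm x), mem_Irr.mpr (irr_comp e.symm (mem_Irr.mp hχ)), ?_⟩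
    funext g
    simp
  · intro χ _
    unfold dg
    simp only [map_one]

end prod

section comm

variable {A : Type} [CommGroup A] [Fintype A]

theorem dg_comm {χ : A → ℂ} (h : IsIrrChar χ) : dg χ = 1 :=
  dg_eq (by rw [comm_one h, Nat.cast_one])

theorem card_Irr_comm : (Irr A).card = Nat.card A := by
  have h1 := congrFun (expand (fun a : A => if a = 1 then (1 : ℂ) else 0) (by
    intro g y
    simp)) 1
  rw [if_pos rfl, Finset.sum_apply] at h1
  have h2 : ∀ χ ∈ Irr A, (B (fun a : A => if a = 1 then (1 : ℂ) else 0) χ • χ) 1 =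
      (Nat.card A : ℂ)⁻¹ := by
    intro χ hχ
    have h3 := comm_one (mem_Irr.mp hχ)
    rw [Pi.smul_apply, h3, smul_eq_mul, mul_one]
    unfold B
    rw [Finset.sum_eq_single (1 : A)]
    · beta_reduce
      rw [if_pos rfl, inv_one, h3, mul_one, mul_one]
    · intro b _ hb
      beta_reduce
      rw [if_neg hb, zero_mul]
    · intro h
      exact absurd (Finset.mem_univ _) h
  rw [Finset.sum_congr rfl h2, Finset.sum_const, nsmul_eq_mul] at h1
  have h4 := cardG_ne (G := A)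
  have h5 : ((Irr A).card : ℂ) = Nat.card A := by
    field_simp at h1
    exact h1.symm
  exact_mod_cast h5

end comm

section wq

variable {r : ℕ} [hr : Fact r.Prime] {A : Type} [CommGroup A] [Fintype A]

theorem dg_ind {θ : ZMod r → A → ℂ} (h : ∀ i, IsIrrChar (θ i)) : dg (ind θ) = r := by
  refine dg_eq ?_
  rw [ind_one, Finset.prod_congr rfl fun i _ => comm_one (h i), Finset.prod_const_one, mul_one]

theorem dg_extC {θ : A → ℂ} (h : IsIrrChar θ) (j : ZMod r) : dg (extC (q := r) j θ) = 1 := by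
  have h1 := congrFun (rs_extC (q := r) h j) 1
  refine dg_eq ?_
  rw [Nat.cast_one]
  have h2 : rs (extC (q := r) j θ) 1 = extC (q := r) j θ 1 := rfl
  rw [← h2, h1]
  unfold tens
  exact Finset.prod_eq_one fun i _ => comm_one h

/-- the number of nonconstant tuples -/
def nc (r : ℕ) [Fact r.Prime] (A : Type) [CommGroup A] [Fintype A] : ℕ :=
  ((Tup r A).filter NC).card

theorem nc_add : nc r A + Nat.card A = Nat.card A ^ r := by
  have h1 : (Tup r A).card = Nat.card A ^ r := by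
    unfold Tup
    rw [Fintype.card_piFinset, Finset.prod_const, Finset.card_univ, ZMod.card, card_Irr_comm]
  rw [← h1, ← Finset.card_filter_add_card_filter_not (s := Tup r A) NC]
  unfold nc
  congr 1
  rw [← card_Irr_comm]
  symm
  refine Finset.card_bij' (fun θ _ => θ 0) (fun θ _ _ => θ) ?_ ?_ ?_ ?_
  · intro θ hθ
    rw [Finset.mem_filter, mem_Tup] at hθ
    exact mem_Irr.mpr (hθ.1 0)
  · intro θ hθ
    rw [Finset.mem_filter, mem_Tup]
    exact ⟨fun _ => mem_Irr.mp hθ, fun h => h 1 one_ne_zero rfl⟩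
  · intro θ hθ
    rw [Finset.mem_filter] at hθ
    have h7 := (nc_or θ).resolve_left hθ.2
    exact (funext h7).symm
  · intro θ _
    rfl

theorem sum_wq (g : ℕ → ℝ) : (r : ℝ) * ∑ χ ∈ Irr (Wq r A), g (dg χ) =
    (nc r A : ℝ) * g r + ((r : ℝ) * (r * Nat.card A)) * g 1 := by
  have hsum : ∑ χ ∈ Irr (Wq r A), g (dg χ) =
      ∑ χ ∈ Irr (Wq r A), ((if dg χ = r then g r else 0) + (if dg χ = 1 then g 1 else 0)) := by
    refine Finset.sum_congr rfl fun χ hχ => ?_
    rw [Irr_wq, Finset.mem_union, Finset.mem_image, Finset.mem_image] at hχ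
    have hr1 : r ≠ 1 := hr.out.one_lt.ne'
    rcases hχ with ⟨θ, h1, rfl⟩ | ⟨⟨j, θ⟩, h1, rfl⟩
    · rw [Finset.mem_filter, mem_Tup] at h1
      rw [dg_ind h1.1, if_pos rfl, if_neg hr1, add_zero]
    · rw [Finset.mem_product, mem_Irr] at h1
      rw [dg_extC h1.2, if_pos rfl, if_neg hr1.symm, zero_add]
  rw [hsum, Finset.sum_add_distrib, ← Finset.sum_filter, ← Finset.sum_filter, Finset.sum_const,
    Finset.sum_const, nsmul_eq_mul, nsmul_eq_mul, mul_add, ← mul_assoc, ← mul_assoc]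
  have hr1 : r ≠ 1 := hr.out.one_lt.ne'
  have k1 := countQ (q := r) (G := A) (fun χ => dg χ = r)
  have k2 := countQ (q := r) (G := A) (fun χ => dg χ = 1)
  have a1 : ∀ d : DecidablePred (fun θ : ZMod r → A → ℂ => NC θ ∧ dg (ind θ) = r),
      (@Finset.filter _ _ d (Tup r A)).card = nc r A := by
    intro d
    unfold nc
    congr 1
    ext θ
    simp only [Finset.mem_filter]
    refine and_congr_right fun ht => ?_
    rw [dg_ind (mem_Tup.mp ht)]
    simp
  have a2 : ∀ d : DecidablePred (fun θ : ZMod r → A → ℂ => NC θ ∧ dg (ind θ) = 1),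
      (@Finset.filter _ _ d (Tup r A)).card = 0 := by
    intro d
    rw [Finset.card_eq_zero, Finset.filter_eq_empty_iff]
    rintro θ ht ⟨-, h⟩
    rw [dg_ind (mem_Tup.mp ht)] at h
    exact hr1 h
  have a3 : ∀ d : DecidablePred (fun t : ZMod r × (A → ℂ) => dg (extC t.1 t.2) = r),
      (@Finset.filter _ _ d (Finset.univ ×ˢ Irr A)).card = 0 := by
    intro d
    rw [Finset.card_eq_zero, Finset.filter_eq_empty_iff]
    rintro ⟨j, θ⟩ ht h
    rw [Finset.mem_product, mem_Irr] at ht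
    rw [dg_extC ht.2] at h
    exact hr1 h.symm
  have a4 : ∀ d : DecidablePred (fun t : ZMod r × (A → ℂ) => dg (extC t.1 t.2) = 1),
      (@Finset.filter _ _ d (Finset.univ ×ˢ Irr A)).card = r * Nat.card A := by
    intro d
    rw [Finset.filter_true_of_mem, Finset.card_product, Finset.card_univ, ZMod.card,
      card_Irr_comm]
    rintro ⟨j, θ⟩ ht
    rw [Finset.mem_product, mem_Irr] at ht
    exact dg_extC ht.2 _
  rw [a1, a3, mul_zero, add_zero] at k1
  rw [a2, a4, zero_add] at k2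
  have k1' : ∀ d : DecidablePred (fun χ : Wq r A → ℂ => dg χ = r),
      (r : ℝ) * (@Finset.filter _ _ d (Irr (Wq r A))).card = nc r A := by
    intro d
    rw [← k1, Nat.cast_mul]
    exact congrArg (fun t : Finset (Wq r A → ℂ) => (r : ℝ) * (t.card : ℝ)) (filter_inst _ _ _ _)
  have k2' : ∀ d : DecidablePred (fun χ : Wq r A → ℂ => dg χ = 1),
      (r : ℝ) * (@Finset.filter _ _ d (Irr (Wq r A))).card = r * (r * Nat.card A) := by
    intro d
    have : ((r * (r * Nat.card A) : ℕ) : ℝ) = (r : ℝ) * (r * Nat.card A) := by push_cast; rfl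
    rw [← this, ← k2, Nat.cast_mul]
    exact congrArg (fun t : Finset (Wq r A → ℂ) => (r : ℝ) * (t.card : ℝ)) (filter_inst _ _ _ _)
  rw [k1', k2']

/-- the sums for `G × (A ≀ C_r)` -/
theorem Sm_wq (p : ℕ) (h : ZMod p → ℝ) (G : Type) [Group G] [Fintype G] :
    (r : ℝ) * Sm p h (G × Wq r A) = (nc r A : ℝ) * Sm p (fun a => h ((r : ZMod p) * a)) G +
      ((r : ℝ) * (r * Nat.card A)) * Sm p h G := by
  rw [Sm_prod]
  unfold Sm
  rw [Finset.mul_sum, Finset.mul_sum, Finset.mul_sum, ← Finset.sum_add_distrib]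
  refine Finset.sum_congr rfl fun θ _ => ?_
  have := sum_wq (r := r) (A := A) (fun n => h ((dg θ : ZMod p) * (n : ZMod p)))
  rw [this, Nat.cast_one, mul_one]
  beta_reduce
  rw [mul_comm (r : ZMod p)]

end wq

end Pool.Agent.Hp21.INA
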